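import Pool.Agent.H550U.Y.BK
import Pool.Agent.H550U.W.ScaleC
import Pool.Agent.H550U.W.Lists

/-!
# Chains of lists
-/

namespace Pool.Agent.H550U.Y

open Finset Pool.Agent.H550U.W

/-- extension by the rule (least prime) -/
def UExt (l l' : List ℕ) : Prop := ∃ (b : List ℕ) (a t : ℕ), l = a :: b ∧ t ∈ l ∧ 0 < t ∧ (a + t + 1).Prime ∧
  l' = (a + t) :: l ∧ ∀ t' ∈ l, (a + t' + 1).Prime → t ≤ t'

lemma UExt.ext {l l' : List ℕ} (h : UExt l l') : Ext l l' := by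
  obtain ⟨b, a, t, h1, h2, h3, h4, h5, -⟩ := h
  exact ⟨b, a, t, h1, h2, h3, h4, h5⟩

/-- chains with `n` steps, at most `v` of them not by the rule -/
inductive Ch : List ℕ → List ℕ → ℕ → ℕ → Prop
  | refl (l : List ℕ) : Ch l l 0 0
  | ext {l l' l'' : List ℕ} {n v : ℕ} : Ch l l' n v → Ext l' l'' → Ch l l'' (n + 1) (v + 1)
  | uext {l l' l'' : List ℕ} {n v : ℕ} : Ch l l' n v → UExt l' l'' → Ch l l'' (n + 1) v

lemma Ch.length {l l' : List ℕ} {n v : ℕ} (h : Ch l l' n v) : l'.length = l.length + n := by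
  induction h with
  | refl => rfl
  | ext _ h1 ih =>
    obtain ⟨b, a, t, h2, h3, h4, h5, h6⟩ := h1
    rw [h6, List.length_cons, ih]; ring
  | uext _ h1 ih =>
    obtain ⟨b, a, t, h2, h3, h4, h5, h6⟩ := h1.ext
    rw [h6, List.length_cons, ih]; ring

structure Inv (D : Finset ℕ) (l : List ℕ) : Prop where
  srt : l.Pairwise (· > ·)
  elt : ∀ x ∈ l, PP x ∨ x = 1 ∨ x = 2
  sub : ∀ x ∈ D, x ∈ l
  out : ∀ x ∈ l, x ∉ D → ∀ d ∈ D, d < x

lemma le_head {a : ℕ} {b : List ℕ} (h : (a :: b).Pairwise (· > ·)) {x : ℕ} (hx : x ∈ a :: b) : x ≤ a := by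
  rcases List.mem_cons.mp hx with h1 | h1
  · exact h1.le
  · exact (List.rel_of_pairwise_cons h h1).le

lemma Inv.cons {D : Finset ℕ} {a t : ℕ} {b : List ℕ} (h : Inv D (a :: b)) (ht : 0 < t) (hp : PP (a + t)) :
    Inv D ((a + t) :: a :: b) := by
  refine ⟨?_, ?_, ?_, ?_⟩
  · refine List.Pairwise.cons ?_ h.srt
    intro x hx
    have := le_head h.srt hx
    omega
  · intro x hx
    rcases List.mem_cons.mp hx with h1 | h1
    · exact Or.inl (h1 ▸ hp)
    · exact h.elt x h1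
  · intro x hx
    exact List.mem_cons_of_mem _ (h.sub x hx)
  · intro x hx hxD d hd
    rcases List.mem_cons.mp hx with h1 | h1
    · have := le_head h.srt (h.sub d hd)
      omega
    · exact h.out x h1 hxD d hd

lemma Inv.pos {D : Finset ℕ} {l : List ℕ} (h : Inv D l) {x : ℕ} (hx : x ∈ l) : 0 < x := by
  rcases h.elt x hx with h1 | h1 | h1
  · exact h1.pos
  · omega
  · omega

theorem wk_ch {D T : Finset ℕ} {y z n v : ℕ} (h : Wk D T y z n v) : ∀ b : List ℕ, Inv D (y :: b) → PP y →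
    (∀ t ∈ T, t ∈ y :: b) → ∃ b' : List ℕ, Ch (y :: b) (z :: b') n v ∧ Inv D (z :: b') ∧ PP z ∧
      ∀ x ∈ y :: b, x ∈ z :: b' := by
  induction h with
  | refl =>
    intro b hI hy hT
    exact ⟨b, Ch.refl _, hI, hy, fun x hx => hx⟩
  | @tru z n v z' _ hz' hmin ih =>
    intro b hI hy hT
    obtain ⟨b', h1, h2, h3, h4⟩ := ih b hI hy hT
    obtain ⟨t, htD, rfl, hp⟩ := hz'
    have htl : t ∈ z :: b' := h2.sub t htD
    have ht0 := h2.pos htl
    refine ⟨z :: b', h1.uext ⟨b', z, t, rfl, htl, ht0, hp.2, rfl, ?_⟩, h2.cons ht0 hp, hp,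
      fun x hx => List.mem_cons_of_mem _ (h4 x hx)⟩
    intro t' ht' hpr
    by_cases htD' : t' ∈ D
    · have hz6 := h3.1
      have hzp := h3.pos
      rcases h2.elt t' ht' with h5 | h5 | h5
      · have h6 : PP (z + t') := ⟨Nat.dvd_add hz6 h5.1, hpr⟩
        have := hmin t' htD' h6
        omega
      · exfalso
        have h6 : 2 ∣ z + t' + 1 := by omega
        have h7 := (Nat.prime_dvd_prime_iff_eq Nat.prime_two hpr).mp h6
        omega
      · exfalso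
        have h6 : 3 ∣ z + t' + 1 := by omega
        have h7 := (Nat.prime_dvd_prime_iff_eq Nat.prime_three hpr).mp h6
        omega
    · exact (h2.out t' ht' htD' t htD).le
  | @vio z n v t _ ht hp ih =>
    intro b hI hy hT
    obtain ⟨b', h1, h2, h3, h4⟩ := ih b hI hy hT
    have htl : t ∈ z :: b' := h4 t (hT t ht)
    have ht0 := h2.pos htl
    exact ⟨z :: b', h1.ext ⟨b', z, t, rfl, htl, ht0, hp.2, rfl⟩, h2.cons ht0 hp, hp,
      fun x hx => List.mem_cons_of_mem _ (h4 x hx)⟩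

/-- segments -/
def Seg (ψ : ℕ → ℕ) (l l' : List ℕ) : Prop := ∃ n v : ℕ, Ch l l' n v ∧ 1 ≤ n ∧
  v * (ψ (l.headD 0) + 1) ≤ 2 * n ∧ n * (ψ (l.headD 0) + 1) ≤ l.length

theorem sel_seg (ψ : ℕ → ℕ) {P : ℕ → Finset ℕ} {Adm : ℕ → ℕ → ℕ → Prop} (D T : Finset ℕ) (K Λ : ℕ)
    (hAdm : ∀ i a c, Adm i a c → ∃ n v, Wk D T a c n v ∧ 1 ≤ n ∧ n ≤ Λ ∧ v * (K + 1) ≤ 2 * n)
    (τ : ℕ → ℕ) (s : ℕ) (b : List ℕ) (hI : Inv D (τ s :: b)) (hP : PP (τ s)) (hT : ∀ t ∈ T, t ∈ τ s :: b)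
    (hlen : Λ * (K + 1) ≤ (τ s :: b).length) :
    ∀ n : ℕ, (∀ i, s ≤ i → i < s + n → τ (i + 1) ∈ P i ∧ Adm i (τ i) (τ (i + 1))) → (∀ i, s ≤ i → i < s + n → ψ (τ i) ≤ K) →
    ∃ b' : List ℕ, Relation.ReflTransGen (Seg ψ) (τ s :: b) (τ (s + n) :: b') ∧ Inv D (τ (s + n) :: b') ∧
      PP (τ (s + n)) ∧ (∀ x ∈ τ s :: b, x ∈ τ (s + n) :: b') ∧ (∀ t ∈ tset τ s (s + n), t ∈ τ (s + n) :: b') ∧
      (τ s :: b).length + n ≤ (τ (s + n) :: b').length ∧ (τ (s + n) :: b').length ≤ (τ s :: b).length + n * Λ := by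
  intro n
  induction n with
  | zero =>
    intro _ _
    refine ⟨b, Relation.ReflTransGen.refl, hI, hP, fun x hx => hx, ?_, by simp, by simp⟩
    intro t ht
    rw [mem_tset] at ht
    obtain ⟨i, h1, h2, _⟩ := ht
    omega
  | succ n ih =>
    intro h hψ
    obtain ⟨b₁, h1, h2, h3, h4, h5, h6, h7⟩ := ih (fun i hi hi' => h i hi (by omega)) (fun i hi hi' => hψ i hi (by omega))
    obtain ⟨k, v, w1, w2, w3, w4⟩ := hAdm _ _ _ (h (s + n) (by omega) (by omega)).2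
    obtain ⟨b₂, c1, c2, c3, c4⟩ := wk_ch w1 b₁ h2 h3 (fun t ht => h4 t (hT t ht))
    have hψn := hψ (s + n) (by omega) (by omega)
    have hseg : Seg ψ (τ (s + n) :: b₁) (τ (s + n + 1) :: b₂) := by
      refine ⟨k, v, c1, w2, ?_, ?_⟩
      · change v * (ψ (τ (s + n)) + 1) ≤ 2 * k
        exact (Nat.mul_le_mul_left _ (by omega)).trans w4
      · change k * (ψ (τ (s + n)) + 1) ≤ _
        calc k * (ψ (τ (s + n)) + 1) ≤ Λ * (K + 1) := Nat.mul_le_mul w3 (by omega)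
          _ ≤ _ := hlen
          _ ≤ _ := by omega
    have hl := c1.length
    refine ⟨b₂, h1.tail hseg, c2, c3, fun x hx => c4 x (h4 x hx), ?_, ?_, ?_⟩
    · intro t ht
      rw [mem_tset] at ht
      obtain ⟨i, e1, e2, e3⟩ := ht
      rcases Nat.lt_or_ge i (s + n) with h8 | h8
      · exact c4 t (h5 t (mem_tset.mpr ⟨i, e1, h8, e3⟩))
      · have : i = s + n := by omega
        subst this
        rw [← e3]
        exact List.mem_cons_self
    · change _ ≤ (τ (s + n + 1) :: b₂).length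
      omega
    · change (τ (s + n + 1) :: b₂).length ≤ _
      have : (n + 1) * Λ = n * Λ + Λ := by ring
      omega

end Pool.Agent.H550U.Y
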