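import Pool.Agent.H550U.Y.Base2

/-!
# The infinite sequence
-/

namespace Pool.Agent.H550U.Y

open Finset Pool.Agent.H550U.W

/-- the suffix of length `k` -/
def sfx (l : List ℕ) (k : ℕ) : List ℕ := l.drop (l.length - k)

lemma sfx_length {l : List ℕ} {k : ℕ} (h : k ≤ l.length) : (sfx l k).length = k := by
  unfold sfx
  rw [List.length_drop]
  omega

lemma sfx_self (l : List ℕ) : sfx l l.length = l := by
  unfold sfx
  rw [Nat.sub_self, List.drop_zero]

lemma sfx_cons (a : ℕ) {l : List ℕ} {k : ℕ} (h : k ≤ l.length) : sfx (a :: l) k = sfx l k := by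
  unfold sfx
  rw [List.length_cons, show l.length + 1 - k = (l.length - k) + 1 by omega, List.drop_succ_cons]

lemma sfx_suffix {l l' : List ℕ} (h : l <:+ l') {k : ℕ} (hk : k ≤ l.length) : sfx l' k = sfx l k := by
  obtain ⟨p, rfl⟩ := h
  induction p with
  | nil => rfl
  | cons a p ih =>
    rw [List.cons_append, sfx_cons a (by rw [List.length_append]; omega), ih]

theorem ch_sfx {l l' : List ℕ} {n v : ℕ} (h : Ch l l' n v) : ∃ Z : Finset ℕ, #Z ≤ v ∧ ∀ k, l.length ≤ k → k < l'.length →
    Ext (sfx l' k) (sfx l' (k + 1)) ∧ (k ∉ Z → UExt (sfx l' k) (sfx l' (k + 1))) := by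
  classical
  induction h with
  | refl => exact ⟨∅, by simp, fun k h1 h2 => by omega⟩
  | @ext l' l'' n v _ h1 ih =>
    obtain ⟨Z, hZ, h2⟩ := ih
    have h1' := h1
    obtain ⟨b, a, t, e1, e2, e3, e4, e5⟩ := h1'
    refine ⟨insert l'.length Z, (card_insert_le _ _).trans (by omega), ?_⟩
    intro k hk hk'
    rw [e5, List.length_cons] at hk'
    rcases Nat.lt_or_ge k l'.length with h3 | h3
    · obtain ⟨h4, h5⟩ := h2 k hk h3
      rw [e5, sfx_cons _ h3.le, sfx_cons _ h3]
      exact ⟨h4, fun hk => h5 fun h => hk (mem_insert_of_mem h)⟩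
    · have h4 : k = l'.length := by omega
      subst h4
      have h5 : sfx l'' l'.length = l' := by rw [e5, sfx_cons _ le_rfl, sfx_self]
      have h6 : sfx l'' (l'.length + 1) = l'' := by
        have : l''.length = l'.length + 1 := by rw [e5, List.length_cons]
        rw [← this, sfx_self]
      rw [h5, h6]
      exact ⟨h1, fun hk => absurd (mem_insert_self _ _) hk⟩
  | @uext l' l'' n v _ h1 ih =>
    obtain ⟨Z, hZ, h2⟩ := ih
    obtain ⟨b, a, t, e1, e2, e3, e4, e5⟩ := h1.ext
    refine ⟨Z, hZ, ?_⟩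
    intro k hk hk'
    rw [e5, List.length_cons] at hk'
    rcases Nat.lt_or_ge k l'.length with h3 | h3
    · obtain ⟨h4, h5⟩ := h2 k hk h3
      rw [e5, sfx_cons _ h3.le, sfx_cons _ h3]
      exact ⟨h4, h5⟩
    · have h4 : k = l'.length := by omega
      subst h4
      have h5 : sfx l'' l'.length = l' := by rw [e5, sfx_cons _ le_rfl, sfx_self]
      have h6 : sfx l'' (l'.length + 1) = l'' := by
        have : l''.length = l'.length + 1 := by rw [e5, List.length_cons]
        rw [← this, sfx_self]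
      rw [h5, h6]
      exact ⟨h1.ext, fun _ => h1⟩

/-- the states, without the parameters -/
def Good (X₁ : ℕ) (ψ : ℕ → ℕ) (l : List ℕ) : Prop :=
  ∃ (L M υ g X : ℕ) (S : Finset (ℕ × ℕ)) (D T TB : Finset ℕ) (r : ℕ) (b : List ℕ), X₁ ≤ X ∧
    St ψ l L M υ g X S D T TB r b

theorem segments (A : Finset ℕ) (hA : ∀ a ∈ A, PP a ∨ a = 1 ∨ a = 2) : ∃ (ψ : ℕ → ℕ) (f : ℕ → List ℕ), Monotone ψ ∧
    (∀ K, ∃ X₀, ∀ X, X₀ ≤ X → K ≤ ψ X) ∧ (∀ n, Seg ψ (f n) (f (n + 1))) ∧
    (f 0).Pairwise (· > ·) ∧ (∀ a ∈ f 0, PP a ∨ a = 1 ∨ a = 2) ∧ ∀ a ∈ A, a ∈ f 0 := by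
  obtain ⟨X₁, ψ, hψ1, hψ2, htc⟩ := exists_psi
  obtain ⟨l, L, M, υ, g, X, S, D, T, TB, r, b, hX, hst, hAl⟩ := base2 X₁ ψ htc A hA
  have hG : Good X₁ ψ l := ⟨L, M, υ, g, X, S, D, T, TB, r, b, hX, hst⟩
  have hGstep : ∀ l, Good X₁ ψ l → ∃ l', Good X₁ ψ l' ∧ Relation.TransGen (Seg ψ) l l' := by
    rintro l ⟨L, M, υ, g, X, S, D, T, TB, r, b, hX, hst⟩
    obtain ⟨l', L', M', υ', g', X', S', D', T', TB', r', b', h1, h2, h3⟩ := step2 X₁ ψ hψ1 htc hX hst
    exact ⟨l', ⟨L', M', υ', g', X', S', D', T', TB', r', b', h1, h2⟩, h3⟩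
  have hstep : ∀ l : {l : List ℕ // ∃ l', Relation.ReflTransGen (Seg ψ) l l' ∧ Good X₁ ψ l'},
      ∃ l₁ : {l : List ℕ // ∃ l', Relation.ReflTransGen (Seg ψ) l l' ∧ Good X₁ ψ l'}, Seg ψ l.1 l₁.1 := by
    rintro ⟨l, l', h, hG⟩
    rcases h.cases_head with h | ⟨c, hc, hcl⟩
    · subst h
      obtain ⟨l'', hG'', ht⟩ := hGstep _ hG
      obtain ⟨c, hc, hcl⟩ := Relation.TransGen.head'_iff.mp ht
      exact ⟨⟨c, l'', hcl, hG''⟩, hc⟩
    · exact ⟨⟨c, l', hcl, hG⟩, hc⟩
  choose nx hnx using hstep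
  obtain ⟨f, hf0, hfs⟩ : ∃ f : ℕ → {l : List ℕ // ∃ l', Relation.ReflTransGen (Seg ψ) l l' ∧ Good X₁ ψ l'},
      f 0 = ⟨l, l, Relation.ReflTransGen.refl, hG⟩ ∧ ∀ n, f (n + 1) = nx (f n) :=
    ⟨fun n => Nat.rec ⟨l, l, Relation.ReflTransGen.refl, hG⟩ (fun _ x => nx x) n, rfl, fun _ => rfl⟩
  refine ⟨ψ, fun n => (f n).1, hψ1, hψ2, fun n => ?_, ?_, ?_, ?_⟩
  · change Seg ψ (f n).1 (f (n + 1)).1
    rw [hfs]
    exact hnx (f n)
  · change (f 0).1.Pairwise (· > ·)
    rw [hf0]; exact hst.inv.srt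
  · change ∀ a ∈ (f 0).1, PP a ∨ a = 1 ∨ a = 2
    rw [hf0]; exact hst.inv.elt
  · change ∀ a ∈ A, a ∈ (f 0).1
    rw [hf0]; exact hAl

/-- the lists of all lengths -/
theorem lists (A : Finset ℕ) (hA : ∀ a ∈ A, PP a ∨ a = 1 ∨ a = 2) : ∃ (m : ℕ) (G : ℕ → List ℕ) (Z : Set ℕ), 1 ≤ m ∧
    (∀ k, (G k).length = k) ∧ (∀ k, k < m → ∃ a, G (k + 1) = a :: G k) ∧ (∀ k, m ≤ k → Ext (G k) (G (k + 1))) ∧
    (∀ k, m ≤ k → k ∉ Z → UExt (G k) (G (k + 1))) ∧ (G m).Pairwise (· > ·) ∧ (∀ a ∈ G m, PP a ∨ a = 1 ∨ a = 2) ∧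
    (∀ a ∈ A, a ∈ G m) ∧ ∀ K : ℕ, ∃ C : ℕ, ∀ N : ℕ, (K + 1) * (Z ∩ Set.Iio N).ncard ≤ C + 3 * N := by
  classical
  obtain ⟨ψ, f, hψ1, hψ2, hf, h0, h1, h2⟩ := segments A hA
  choose n v hch hn1 hv hn using hf
  have hlen : ∀ j, (f (j + 1)).length = (f j).length + n j := fun j => (hch j).length
  have hlenj : ∀ j, (f 0).length + j ≤ (f j).length := by
    intro j
    induction j with
    | zero => exact le_rfl
    | succ j ih => have := hlen j; have := hn1 j; omega
  have hlenm : ∀ i j, i ≤ j → (f i).length ≤ (f j).length := by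
    intro i j hij
    induction j, hij using Nat.le_induction with
    | base => exact le_rfl
    | succ j _ ih => have := hlen j; omega
  have hsuf : ∀ i j, i ≤ j → f i <:+ f j := by
    intro i j hij
    induction j, hij using Nat.le_induction with
    | base => exact List.suffix_refl _
    | succ j _ ih => exact ih.trans (hch j).suffix
  choose Zf hZf hZ using fun j => ch_sfx (hch j)
  obtain ⟨G, hG⟩ : ∃ G : ℕ → List ℕ, ∀ k, G k = sfx (f k) k := ⟨_, fun _ => rfl⟩
  have hGf : ∀ j k, k ≤ (f j).length → G k = sfx (f j) k := by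
    intro j k hk
    rw [hG]
    rcases Nat.le_total j k with h3 | h3
    · exact sfx_suffix (hsuf j k h3) hk
    · exact (sfx_suffix (hsuf k j h3) (by have := hlenj k; omega)).symm
  -- index of a length
  have hidx : ∀ k, (f 0).length ≤ k → ∃ j, (f j).length ≤ k ∧ k < (f (j + 1)).length := by
    intro k hk
    by_contra hcon
    push Not at hcon
    have : ∀ j, (f j).length ≤ k := by
      intro j
      induction j with
      | zero => exact hk
      | succ j ih => exact hcon j ih
    have h3 := this (k + 1)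
    have h4 := hlenj (k + 1)
    omega
  obtain ⟨Z, hZd⟩ : ∃ Z : Set ℕ, Z = {k | ∃ j, (f j).length ≤ k ∧ k < (f (j + 1)).length ∧ k ∈ Zf j} := ⟨_, rfl⟩
  have hmpos : 1 ≤ (f 0).length := by
    obtain ⟨-, h3⟩ := hZf 0, hZ 0
    have h4 := (h3 (f 0).length le_rfl (by have := hlen 0; have := hn1 0; omega)).1
    obtain ⟨b, a, t, e1, -⟩ := h4
    have h5 : (sfx (f 1) (f 0).length).length = (f 0).length := sfx_length (hlenm 0 1 (by omega))
    rw [e1, List.length_cons] at h5
    omega
  refine ⟨(f 0).length, G, Z, hmpos, ?_, ?_, ?_, ?_, ?_, ?_, ?_, ?_⟩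
  · intro k
    rw [hG]
    exact sfx_length (by have := hlenj k; omega)
  · intro k hk
    rw [hGf 0 k hk.le, hGf 0 (k + 1) hk]
    unfold sfx
    rw [show (f 0).length - k = (f 0).length - (k + 1) + 1 by omega]
    have hlt : (f 0).length - (k + 1) < (f 0).length := by omega
    exact ⟨(f 0)[(f 0).length - (k + 1)], List.drop_eq_getElem_cons hlt⟩
  · intro k hk
    obtain ⟨j, hj1, hj2⟩ := hidx k hk
    rw [hGf (j + 1) k hj2.le, hGf (j + 1) (k + 1) hj2]
    exact (hZ j k hj1 hj2).1
  · intro k hk hkZ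
    obtain ⟨j, hj1, hj2⟩ := hidx k hk
    rw [hGf (j + 1) k hj2.le, hGf (j + 1) (k + 1) hj2]
    refine (hZ j k hj1 hj2).2 fun h => hkZ ?_
    rw [hZd]
    exact ⟨j, hj1, hj2, h⟩
  · rw [hGf 0 _ le_rfl, sfx_self]; exact h0
  · rw [hGf 0 _ le_rfl, sfx_self]; exact h1
  · rw [hGf 0 _ le_rfl, sfx_self]; exact h2
  · intro K
    obtain ⟨X₀, hX₀⟩ := hψ2 K
    -- heads grow
    have hhead : ∀ j, j ≤ (f j).headD 0 := by
      have hpw : ∀ j, (f j).Pairwise (· > ·) ∧ (∀ x ∈ f j, 0 < x) := by
        have key : ∀ l l' : List ℕ, ∀ n v, Ch l l' n v → l.Pairwise (· > ·) ∧ (∀ x ∈ l, 0 < x) →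
            l'.Pairwise (· > ·) ∧ (∀ x ∈ l', 0 < x) := by
          intro l l' n v h
          have ext_case : ∀ l' l'' : List ℕ, Ext l' l'' → l'.Pairwise (· > ·) ∧ (∀ x ∈ l', 0 < x) →
              l''.Pairwise (· > ·) ∧ (∀ x ∈ l'', 0 < x) := by
            rintro l' l'' ⟨b, a, t, e1, e2, e3, e4, e5⟩ ⟨i1, i2⟩
            rw [e5]
            rw [e1] at i1 i2 ⊢
            refine ⟨List.Pairwise.cons ?_ i1, ?_⟩
            · intro x hx
              have := le_head i1 hx
              omega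
            · intro x hx
              rcases List.mem_cons.mp hx with h3 | h3
              · omega
              · exact i2 x h3
          induction h with
          | refl => exact fun h => h
          | ext _ h1 ih => exact fun h => ext_case _ _ h1 (ih h)
          | uext _ h1 ih => exact fun h => ext_case _ _ h1.ext (ih h)
        intro j
        induction j with
        | zero =>
          refine ⟨h0, fun x hx => ?_⟩
          rcases h1 x hx with h3 | h3 | h3
          · exact h3.pos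
          · omega
          · omega
        | succ j ih => exact key _ _ _ _ (hch j) ih
      intro j
      have h3 : ∀ (l : List ℕ), l.Pairwise (· > ·) → (∀ x ∈ l, 0 < x) → l.length ≤ l.headD 0 := by
        intro l
        induction l with
        | nil => intro _ _; simp
        | cons a b ih =>
          intro i1 i2
          change (a :: b).length ≤ a
          rw [List.length_cons]
          have i3 := ih (List.Pairwise.of_cons i1) (fun x hx => i2 x (List.mem_cons_of_mem _ hx))
          cases b with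
          | nil => have := i2 a List.mem_cons_self; simp only [List.length_nil]; omega
          | cons c b' =>
            have i4 := List.rel_of_pairwise_cons i1 (List.mem_cons_self (a := c) (l := b'))
            change (c :: b').length ≤ c at i3
            omega
      have h4 := h3 (f j) (hpw j).1 (hpw j).2
      have h5 := hlenj j
      omega
    have hK : ∀ j, X₀ ≤ j → K ≤ ψ ((f j).headD 0) := fun j hj => hX₀ _ (hj.trans (hhead j))
    have hvK : ∀ j, X₀ ≤ j → v j * (K + 1) ≤ 2 * n j := fun j hj =>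
      (Nat.mul_le_mul_left _ (by have := hK j hj; omega)).trans (hv j)
    have hnK : ∀ j, X₀ ≤ j → n j * (K + 1) ≤ (f j).length := fun j hj =>
      (Nat.mul_le_mul_left _ (by have := hK j hj; omega)).trans (hn j)
    have hfin : ∀ N, (Z ∩ Set.Iio N).Finite := fun N => (Set.finite_Iio N).subset Set.inter_subset_right
    have hcnt : ∀ j, (Z ∩ Set.Iio (f (j + 1)).length).ncard ≤ (Z ∩ Set.Iio (f j).length).ncard + v j := by
      intro j
      have hsub : Z ∩ Set.Iio (f (j + 1)).length ⊆ (Z ∩ Set.Iio (f j).length) ∪ (Zf j : Set ℕ) := by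
        rintro k ⟨hk, hk'⟩
        rw [Set.mem_Iio] at hk'
        rcases Nat.lt_or_ge k (f j).length with h3 | h3
        · exact Or.inl ⟨hk, h3⟩
        · right
          rw [hZd] at hk
          obtain ⟨i, i1, i2, i3⟩ := hk
          have h4 : i = j := by
            rcases Nat.lt_trichotomy i j with h5 | h5 | h5
            · have := hlenm (i + 1) j h5
              omega
            · exact h5
            · have := hlenm (j + 1) i h5
              omega
          rw [← h4]
          exact i3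
      calc (Z ∩ Set.Iio (f (j + 1)).length).ncard ≤ ((Z ∩ Set.Iio (f j).length) ∪ (Zf j : Set ℕ)).ncard :=
            Set.ncard_le_ncard hsub ((hfin _).union (Finset.finite_toSet _))
        _ ≤ (Z ∩ Set.Iio (f j).length).ncard + (Zf j : Set ℕ).ncard := Set.ncard_union_le _ _
        _ ≤ (Z ∩ Set.Iio (f j).length).ncard + v j := by
            rw [Set.ncard_coe_finset]
            exact Nat.add_le_add_left (hZf j) _
    have hmain : ∀ j, X₀ ≤ j → (K + 1) * (Z ∩ Set.Iio (f j).length).ncard ≤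
        (K + 1) * (f X₀).length + 2 * (f j).length := by
      intro j hj
      induction j, hj using Nat.le_induction with
      | base =>
        have h3 : (Z ∩ Set.Iio (f X₀).length).ncard ≤ (f X₀).length := by
          calc (Z ∩ Set.Iio (f X₀).length).ncard ≤ (Set.Iio (f X₀).length).ncard :=
                Set.ncard_le_ncard Set.inter_subset_right (Set.finite_Iio _)
            _ = (f X₀).length := by rw [← Finset.coe_Iio, Set.ncard_coe_finset, Nat.card_Iio]
        have := Nat.mul_le_mul_left (K + 1) h3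
        omega
      | succ j hj ih =>
        have h3 := hcnt j
        have h4 := hvK j hj
        have h5 := hlen j
        calc (K + 1) * (Z ∩ Set.Iio (f (j + 1)).length).ncard ≤
              (K + 1) * ((Z ∩ Set.Iio (f j).length).ncard + v j) := Nat.mul_le_mul_left _ h3
          _ = (K + 1) * (Z ∩ Set.Iio (f j).length).ncard + v j * (K + 1) := by ring
          _ ≤ (K + 1) * (f X₀).length + 2 * (f j).length + 2 * n j := Nat.add_le_add ih h4
          _ = (K + 1) * (f X₀).length + 2 * (f (j + 1)).length := by rw [h5]; ring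
    have hIio : ∀ N, (Z ∩ Set.Iio N).ncard ≤ N := by
      intro N
      calc (Z ∩ Set.Iio N).ncard ≤ (Set.Iio N).ncard := Set.ncard_le_ncard Set.inter_subset_right (Set.finite_Iio _)
        _ = N := by rw [← Finset.coe_Iio, Set.ncard_coe_finset, Nat.card_Iio]
    refine ⟨(K + 1) * (f X₀).length, ?_⟩
    intro N
    rcases Nat.lt_or_ge N (f X₀).length with h3 | h3
    · have h4 := Nat.mul_le_mul_left (K + 1) ((hIio N).trans h3.le)
      omega
    · obtain ⟨j, hj1, hj2⟩ := hidx N ((hlenm 0 X₀ (Nat.zero_le _)).trans h3)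
      have hjX : X₀ ≤ j := by
        by_contra hcon
        have := hlenm (j + 1) X₀ (by omega)
        omega
      have h4 := hmain j hjX
      have h5 := hnK j hjX
      have h6 : (Z ∩ Set.Iio N).ncard ≤ (Z ∩ Set.Iio (f j).length).ncard + n j := by
        have hsub : Z ∩ Set.Iio N ⊆ (Z ∩ Set.Iio (f j).length) ∪ (Finset.Ico (f j).length N : Set ℕ) := by
          rintro k ⟨hk, hk'⟩
          rw [Set.mem_Iio] at hk'
          rcases Nat.lt_or_ge k (f j).length with h7 | h7
          · exact Or.inl ⟨hk, h7⟩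
          · right
            rw [Finset.coe_Ico]
            exact ⟨h7, hk'⟩
        calc (Z ∩ Set.Iio N).ncard ≤ ((Z ∩ Set.Iio (f j).length) ∪ (Finset.Ico (f j).length N : Set ℕ)).ncard :=
              Set.ncard_le_ncard hsub ((hfin _).union (Finset.finite_toSet _))
          _ ≤ (Z ∩ Set.Iio (f j).length).ncard + (Finset.Ico (f j).length N : Set ℕ).ncard := Set.ncard_union_le _ _
          _ ≤ (Z ∩ Set.Iio (f j).length).ncard + n j := by
              rw [Set.ncard_coe_finset, Nat.card_Ico]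
              have := hlen j
              omega
      calc (K + 1) * (Z ∩ Set.Iio N).ncard ≤ (K + 1) * ((Z ∩ Set.Iio (f j).length).ncard + n j) :=
            Nat.mul_le_mul_left _ h6
        _ = (K + 1) * (Z ∩ Set.Iio (f j).length).ncard + n j * (K + 1) := by ring
        _ ≤ (K + 1) * (f X₀).length + 2 * (f j).length + (f j).length := Nat.add_le_add h4 h5
        _ ≤ (K + 1) * (f X₀).length + 3 * N := by omega

end Pool.Agent.H550U.Y
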