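import Pool.Agent.H550U.Y.Win
import Pool.Agent.H550U.W.Step

/-!
# Legs
-/

namespace Pool.Agent.H550U.Y

open Finset Pool.Agent.H550U.W

variable {L M υ g X : ℕ}

lemma Ch.suffix {l l' : List ℕ} {n v : ℕ} (h : Ch l l' n v) : l <:+ l' := by
  induction h with
  | refl => exact List.suffix_refl _
  | ext _ h1 ih =>
    obtain ⟨b, a, t, h2, h3, h4, h5, h6⟩ := h1
    rw [h6]
    exact ih.trans (List.suffix_cons _ _)
  | uext _ h1 ih =>
    obtain ⟨b, a, t, h2, h3, h4, h5, h6⟩ := h1.ext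
    rw [h6]
    exact ih.trans (List.suffix_cons _ _)

lemma seg_suffix {ψ : ℕ → ℕ} {l l' : List ℕ} (h : Relation.ReflTransGen (Seg ψ) l l') : l <:+ l' := by
  induction h with
  | refl => exact List.suffix_refl _
  | tail _ h1 ih =>
    obtain ⟨n, v, h2, -⟩ := h1
    exact ih.trans h2.suffix

theorem leg {ψ : ℕ → ℕ} {D TT : Finset ℕ} {K Λ : ℕ} {E E' : Finset ℕ} {p : ℕ → ℕ} {W n XX : ℕ} {τ : ℕ → ℕ} {r : ℕ}
    {b : List ℕ} (hSel : Sel (cP p W) (cOk p W E) (aAdm D TT K Λ E E') 0 n r τ) (hI : Inv D (r :: b)) (hr : PP r)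
    (hTT : ∀ t ∈ TT, t ∈ r :: b) (hlen : Λ * (K + 1) ≤ (r :: b).length) (hψ : ∀ x, x ≤ XX → ψ x ≤ K) (hrX : r ≤ XX)
    (hpX : ∀ i, i < n → p (i + 1) + W ≤ XX) :
    ∃ b' : List ℕ, Relation.ReflTransGen (Seg ψ) (r :: b) (τ n :: b') ∧ Inv D (τ n :: b') ∧
      PP (τ n) ∧ (∀ x ∈ r :: b, x ∈ τ n :: b') ∧ (∀ t ∈ tset τ 0 n, t ∈ τ n :: b') ∧
      (r :: b).length + n ≤ (τ n :: b').length ∧ (τ n :: b').length ≤ (r :: b).length + n * Λ := by
  obtain ⟨h0, h1, -⟩ := hSel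
  have hmain := sel_seg ψ (P := cP p W) (Adm := aAdm D TT K Λ E E') D TT K Λ (fun i a c h => h.1) τ 0 b
    (by rw [h0]; exact hI) (by rw [h0]; exact hr) (by rw [h0]; exact hTT) (by rw [h0]; exact hlen) n
    (fun i hi hi' => h1 i hi (by omega)) (by
      intro i _ hi
      apply hψ
      rcases Nat.eq_zero_or_pos i with h2 | h2
      · rw [h2, h0]; exact hrX
      · obtain ⟨j, rfl⟩ : ∃ j, i = j + 1 := ⟨i - 1, by omega⟩
        have h3 := (h1 j (Nat.zero_le _) (by omega)).1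
        rw [mem_cP] at h3
        have h4 := hpX j (by omega)
        omega)
  rw [h0, Nat.zero_add] at hmain
  exact hmain

lemma next2 (h : Par L M υ g X) {M' υ' L' X' : ℕ} (hυ' : υ' = M / 32)
    (h1 : L ^ 56 * M ≤ M') (h2 : M' ≤ 2 * L ^ 56 * M) (hL' : L' = ⌈Real.log M'⌉₊) (hX' : X' = M' * L' ^ 58) :
    Par L' M' υ' (L ^ 2) X' ∧ L + 1 ≤ L' ∧ L' ≤ 2 * L := by
  obtain ⟨hp, hLL', hL'2⟩ := h.next hυ' rfl h1 h2 hL' hX'
  obtain ⟨hb1, hb2, hb3⟩ := h.M_big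
  have hLn := h.hL
  refine ⟨⟨hp.hL, hp.logM, hp.logM', ?_, ?_, hp.u1, hp.u2, hp.hX⟩, ?_, hL'2⟩
  · calc 8 ≤ L := by omega
      _ ≤ L ^ 2 := Nat.le_self_pow (by norm_num) _
  · exact Nat.pow_le_pow_left hLL' 2
  · have hL := h.Lpos
    have hM0 : (0 : ℝ) < M := by exact_mod_cast (by omega : 0 < M)
    have hLp : (0 : ℝ) < (L : ℝ) ^ 56 := pow_pos (by linarith) _
    have h1' : (L : ℝ) ^ 56 * M ≤ M' := by exact_mod_cast h1
    have hlog1 : Real.log M + 56 * Real.log L ≤ Real.log M' := by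
      have e1 : Real.log ((L : ℝ) ^ 56 * M) = Real.log M + 56 * Real.log L := by
        rw [Real.log_mul hLp.ne' hM0.ne', Real.log_pow]; push_cast; ring
      rw [← e1]
      exact Real.log_le_log (mul_pos hLp hM0) h1'
    have hlogL : 1 ≤ Real.log L := by
      rw [Real.le_log_iff_exp_le (by linarith)]
      have := Real.exp_one_lt_d9
      linarith
    have hM2 := h.logM'
    have hLe := hp.logM
    have : (L : ℝ) + 1 ≤ L' := by linarith
    exact_mod_cast this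

lemma NN_le (h : Par L M υ g X) : NN L M υ g ≤ L ^ 58 := by
  obtain ⟨hM, hυ⟩ := h.pos
  have hL := h.hL
  have hg := h.g2
  have hg1 := h.g1
  have e1 : NG L = 16 * L ^ 17 := by unfold NG; ring
  have e2 : NAf M υ g ≤ 2 * L ^ 57 + 1 := by
    unfold NAf
    refine Nat.add_le_add_right ?_ 1
    apply Nat.div_le_of_le_mul
    have h1 := h.u2
    calc 2 * M ≤ 2 * (υ * L ^ 57) := Nat.mul_le_mul_left _ h1
      _ = υ * (2 * L ^ 57) := by ring
      _ ≤ (g * υ) * (2 * L ^ 57) := Nat.mul_le_mul_right _ (Nat.le_mul_of_pos_left _ (by omega))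
  have e3 : (L ^ 9 * L ^ 37 + 1) * g ≤ 2 * L ^ 48 := by
    have a2 : 1 ≤ L ^ 46 := Nat.one_le_pow _ _ (by omega)
    calc (L ^ 9 * L ^ 37 + 1) * g ≤ (L ^ 46 + L ^ 46) * L ^ 2 := by
          refine Nat.mul_le_mul ?_ hg
          rw [← pow_add]
          exact Nat.add_le_add le_rfl a2
      _ = 2 * L ^ 48 := by ring
  have e4 : L ^ 17 ≤ L ^ 57 := Nat.pow_le_pow_right (by omega) (by norm_num)
  have e5 : L ^ 48 ≤ L ^ 57 := Nat.pow_le_pow_right (by omega) (by norm_num)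
  have e6 : 1 ≤ L ^ 57 := Nat.one_le_pow _ _ (by omega)
  have e7 : 100 * L ^ 57 ≤ L ^ 58 := lp (by omega) (by omega) (by norm_num)
  unfold NN N0
  omega

lemma E_leU (h : Par L M υ g X) {S : Finset (ℕ × ℕ)} {U : ℕ}
    (hU : (#S : ℝ) ≤ (X : ℝ) ^ 2 / Real.log X ^ (U + 300)) : (#(EE X S) : ℝ) * (L : ℝ) ^ U ≤ υ / (L : ℝ) ^ 184 := by
  have h1 := card_EE (X := X) (by have := h.Xbig; omega) S
  have h3 := h.Lpos
  have h4 := h.XL
  obtain ⟨hl1, hl2⟩ := h.logX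
  have hX0 : (0 : ℝ) < X := by
    have := h.Xbig
    exact_mod_cast (by omega : 0 < X)
  have hLp : ∀ n : ℕ, (0 : ℝ) < (L : ℝ) ^ n := fun n => pow_pos (by linarith) n
  have hS : (#S : ℝ) ≤ X ^ 2 / (L : ℝ) ^ (U + 300) := by
    refine hU.trans ?_
    exact div_le_div₀ (sq_nonneg _) le_rfl (hLp _) (pow_le_pow_left₀ (by linarith) hl1 _)
  have h5 : (#(EE X S) : ℝ) * X ≤ 13 * #S := by exact_mod_cast h1
  have h6 : (#(EE X S) : ℝ) ≤ 13 * (X / (L : ℝ) ^ (U + 300)) := by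
    have : (#(EE X S) : ℝ) * X ≤ 13 * (X / (L : ℝ) ^ (U + 300)) * X := by
      calc _ ≤ 13 * (#S : ℝ) := h5
        _ ≤ 13 * (X ^ 2 / (L : ℝ) ^ (U + 300)) := mul_le_mul_of_nonneg_left hS (by norm_num)
        _ = _ := by rw [sq, mul_div_assoc, mul_assoc, mul_comm (X / (L : ℝ) ^ (U + 300)) (X : ℝ)]
    exact le_of_mul_le_mul_right this hX0
  calc (#(EE X S) : ℝ) * (L : ℝ) ^ U ≤ 13 * (X / (L : ℝ) ^ (U + 300)) * (L : ℝ) ^ U :=
        mul_le_mul_of_nonneg_right h6 (hLp U).le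
    _ = 13 * (X / (L : ℝ) ^ 300) := by
        rw [pow_add]
        have := hLp U
        have := hLp 300
        field_simp
    _ ≤ 13 * (υ / (L : ℝ) ^ 185) := by
        refine mul_le_mul_of_nonneg_left ?_ (by norm_num)
        rw [div_le_div_iff₀ (hLp 300) (hLp 185)]
        calc (X : ℝ) * (L : ℝ) ^ 185 ≤ (υ : ℝ) * (L : ℝ) ^ 115 * (L : ℝ) ^ 185 :=
              mul_le_mul_of_nonneg_right h4 (hLp 185).le
          _ = (υ : ℝ) * (L : ℝ) ^ 300 := by rw [mul_assoc, ← pow_add]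
    _ ≤ υ / (L : ℝ) ^ 184 := by
        rw [mul_div_assoc', div_le_div_iff₀ (hLp 185) (hLp 184)]
        have h9 : (0 : ℝ) ≤ (υ : ℝ) * (L : ℝ) ^ 184 := mul_nonneg (Nat.cast_nonneg _) (hLp 184).le
        calc 13 * (υ : ℝ) * (L : ℝ) ^ 184 = (υ : ℝ) * (L : ℝ) ^ 184 * 13 := by rw [mul_assoc, mul_comm]
          _ ≤ (υ : ℝ) * (L : ℝ) ^ 184 * L := mul_le_mul_of_nonneg_left (le_trans (by norm_num) h3) h9
          _ = (υ : ℝ) * (L : ℝ) ^ 185 := by rw [mul_assoc, ← pow_succ]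

end Pool.Agent.H550U.Y
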