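import Pool.Agent.H550U.Y.Flat

/-!
# The sequence of primes
-/

namespace Pool.Agent.H550U.Y

open Finset Pool.Agent.H550U.W Filter

lemma tendsto_of_bound (V : ℕ → ℕ) (h : ∀ K : ℕ, ∃ C : ℕ, ∀ N : ℕ, (K + 1) * V N ≤ C + 3 * N) :
    Tendsto (fun N : ℕ => (V N : ℝ) / N) atTop (nhds 0) := by
  rw [Metric.tendsto_atTop]
  intro ε hε
  obtain ⟨K, hK⟩ := exists_nat_gt (6 / ε)
  obtain ⟨C, hC⟩ := h K
  obtain ⟨N₀, hN₀⟩ := exists_nat_gt (2 * C / ε)
  refine ⟨N₀ + 1, fun N hN => ?_⟩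
  have hN0 : (0 : ℝ) < N := by exact_mod_cast (by omega : 0 < N)
  have h1 : ((K : ℝ) + 1) * V N ≤ C + 3 * N := by exact_mod_cast hC N
  have h2 : (2 * C / ε : ℝ) < N := hN₀.trans (by exact_mod_cast (by omega : N₀ < N))
  have h3 : (0 : ℝ) ≤ V N := Nat.cast_nonneg _
  rw [Real.dist_eq, sub_zero, abs_of_nonneg (div_nonneg h3 hN0.le), div_lt_iff₀ hN0]
  rw [div_lt_iff₀ hε] at hK h2
  have hC0 : (0 : ℝ) ≤ C := Nat.cast_nonneg _
  have hK0 : (0 : ℝ) ≤ K := Nat.cast_nonneg _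
  -- (K+1) V ≤ C + 3N, 6 < K ε, 2 C < N ε
  by_contra hcon
  push Not at hcon
  have h4 : ((K : ℝ) + 1) * (ε * N) ≤ C + 3 * N := le_trans (by gcongr) h1
  have h5 : 6 * N < K * ε * N := by gcongr
  nlinarith

theorem almost (A : Finset ℕ) (hA : ∀ p ∈ A, p.Prime ∧ (p = 2 ∨ p % 3 ≠ 2)) : ∃ m : ℕ, 1 ≤ m ∧ ∃ q : ℕ → ℕ,
    (∀ i, (q i).Prime) ∧ (∀ i j, i < j → q i < q j) ∧ (∀ p ∈ A, ∃ i, i < m ∧ q i = p) ∧
    (∀ n, m - 1 ≤ n → ∃ i, i ≤ n ∧ q (n + 1) = q n + q i - 1) ∧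
    Tendsto (fun N : ℕ => ({n : ℕ | n < N ∧
      ¬ IsLeast {p : ℕ | p.Prime ∧ ∃ i, i ≤ n ∧ p = q n + q i - 1} (q (n + 1))}.ncard : ℝ) / N) atTop (nhds 0) := by
  classical
  obtain ⟨m, G, Z, hm1, hGlen, hGlt, hGext, hGu, hGs, hGe, hGA, hGZ⟩ := lists (A.image fun p => p - 1) (by
    intro a ha
    obtain ⟨p, hp, rfl⟩ := mem_image.mp ha
    obtain ⟨h1, h2⟩ := hA p hp
    rcases h1.eq_two_or_odd with h3 | h3
    · right; left; rw [h3]
    rcases h2 with h2 | h2
    · right; left; rw [h2]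
    rcases Nat.lt_or_ge (p % 3) 1 with h4 | h4
    · right; right
      have h5 : 3 ∣ p := by omega
      have h6 := (Nat.prime_dvd_prime_iff_eq Nat.prime_three h1).mp h5
      omega
    · left
      have h5 := h1.one_lt
      exact ⟨by omega, by rwa [Nat.sub_add_cancel h5.le]⟩)
  obtain ⟨x, hx⟩ : ∃ x : ℕ → ℕ, ∀ k, x k = (G (k + 1)).headD 0 := ⟨_, fun _ => rfl⟩
  have hGx : ∀ k, G (k + 1) = x k :: G k := by
    intro k
    rcases Nat.lt_or_ge k m with h | h
    · obtain ⟨a, ha⟩ := hGlt k h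
      rw [hx, ha]
      rfl
    · obtain ⟨b, a, t, h1, h2, h3, h4, h5⟩ := hGext k h
      rw [hx, h5]
      rfl
  have hpw1 : ∀ d, d ≤ m → (G (m - d)).Pairwise (· > ·) ∧ ∀ a ∈ G (m - d), PP a ∨ a = 1 ∨ a = 2 := by
    intro d
    induction d with
    | zero => intro _; exact ⟨hGs, hGe⟩
    | succ d ih =>
      intro hd
      obtain ⟨h1, h2⟩ := ih (by omega)
      have h3 := hGx (m - (d + 1))
      rw [show m - (d + 1) + 1 = m - d by omega] at h3
      rw [h3] at h1 h2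
      exact ⟨List.Pairwise.of_cons h1, fun a ha => h2 a (List.mem_cons_of_mem _ ha)⟩
  have hprime1 : ∀ a, (PP a ∨ a = 1 ∨ a = 2) → (a + 1).Prime := by
    rintro a (h | h | h)
    · exact h.2
    · rw [h]; exact Nat.prime_two
    · rw [h]; exact Nat.prime_three
  have hpw : ∀ k, (G k).Pairwise (· > ·) ∧ ∀ a ∈ G k, (a + 1).Prime := by
    intro k
    rcases Nat.le_total k m with h | h
    · have := hpw1 (m - k) (by omega)
      rw [show m - (m - k) = k by omega] at this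
      exact ⟨this.1, fun a ha => hprime1 a (this.2 a ha)⟩
    · induction k, h using Nat.le_induction with
      | base => exact ⟨hGs, fun a ha => hprime1 a (hGe a ha)⟩
      | succ k hk ih =>
        obtain ⟨b, a, t, h1, h2, h3, h4, h5⟩ := hGext k hk
        rw [h5]
        refine ⟨List.Pairwise.cons ?_ ih.1, ?_⟩
        · intro y hy
          have h6 := ih.1
          rw [h1] at h6 hy
          have := le_head h6 hy
          omega
        · intro y hy
          rcases List.mem_cons.mp hy with h6 | h6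
          · rw [h6]; exact h4
          · exact ih.2 y h6
  have hmem : ∀ k a, a ∈ G k ↔ ∃ i, i < k ∧ x i = a := by
    intro k
    induction k with
    | zero =>
      intro a
      have h1 : G 0 = [] := List.length_eq_zero_iff.mp (hGlen 0)
      rw [h1]
      constructor
      · intro h; exact absurd h List.not_mem_nil
      · rintro ⟨i, hi, -⟩; omega
    | succ k ih =>
      intro a
      rw [hGx, List.mem_cons, ih]
      constructor
      · rintro (h | ⟨i, h1, h2⟩)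
        · exact ⟨k, by omega, h.symm⟩
        · exact ⟨i, by omega, h2⟩
      · rintro ⟨i, h1, h2⟩
        rcases Nat.lt_or_ge i k with h3 | h3
        · exact Or.inr ⟨i, h3, h2⟩
        · left
          have : i = k := by omega
          rw [← h2, this]
  have hlt : ∀ i j, i < j → x i < x j := by
    intro i j hij
    have h1 := (hpw (j + 1)).1
    rw [hGx] at h1
    exact List.rel_of_pairwise_cons h1 ((hmem j (x i)).mpr ⟨i, hij, rfl⟩)
  -- the steps
  have hstep : ∀ n, m - 1 ≤ n → ∃ t ∈ G (n + 1), x (n + 1) = x n + t := by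
    intro n hn
    obtain ⟨b, a, t, h1, h2, h3, h4, h5⟩ := hGext (n + 1) (by omega)
    rw [hGx (n + 1)] at h5
    rw [hGx n] at h1
    have e1 := (List.cons.inj h5).1
    have e2 := (List.cons.inj h1).1
    exact ⟨t, h2, by omega⟩
  have hleast : ∀ n, m - 1 ≤ n → n + 1 ∉ Z →
      IsLeast {p : ℕ | p.Prime ∧ ∃ i, i ≤ n ∧ p = (x n + 1) + (x i + 1) - 1} (x (n + 1) + 1) := by
    intro n hn hZn
    obtain ⟨b, a, t, h1, h2, h3, h4, h5, h6⟩ := hGu (n + 1) (by omega) hZn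
    rw [hGx (n + 1)] at h5
    have h1' := h1
    rw [hGx n] at h1'
    have e1 := (List.cons.inj h5).1
    have e2 := (List.cons.inj h1').1
    refine ⟨⟨?_, ?_⟩, ?_⟩
    · exact (hpw (n + 2)).2 _ ((hmem (n + 2) _).mpr ⟨n + 1, by omega, rfl⟩)
    · obtain ⟨i, hi, hxi⟩ := (hmem (n + 1) t).mp h2
      exact ⟨i, by omega, by omega⟩
    · rintro p ⟨hp1, i, hi, hp2⟩
      have h7 : x i ∈ G (n + 1) := (hmem (n + 1) _).mpr ⟨i, by omega, rfl⟩
      have h8 := h6 (x i) h7 (by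
        have : a + x i + 1 = p := by omega
        rw [this]; exact hp1)
      omega
  refine ⟨m, hm1, fun i => x i + 1, ?_, ?_, ?_, ?_, ?_⟩
  · intro i
    exact (hpw (i + 1)).2 _ ((hmem (i + 1) _).mpr ⟨i, by omega, rfl⟩)
  · intro i j hij
    have := hlt i j hij
    change x i + 1 < x j + 1
    omega
  · intro p hp
    obtain ⟨i, hi, hxi⟩ := (hmem m (p - 1)).mp (hGA _ (mem_image_of_mem _ hp))
    refine ⟨i, hi, ?_⟩
    have := (hA p hp).1.one_lt
    change x i + 1 = p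
    omega
  · intro n hn
    obtain ⟨t, ht, h1⟩ := hstep n hn
    obtain ⟨i, hi, hxi⟩ := (hmem (n + 1) t).mp ht
    refine ⟨i, by omega, ?_⟩
    change x (n + 1) + 1 = (x n + 1) + (x i + 1) - 1
    omega
  · refine tendsto_of_bound (fun N => {n : ℕ | n < N ∧
      ¬ IsLeast {p : ℕ | p.Prime ∧ ∃ i, i ≤ n ∧ p = (x n + 1) + (x i + 1) - 1} (x (n + 1) + 1)}.ncard) ?_
    intro K
    obtain ⟨C, hC⟩ := hGZ K
    refine ⟨(K + 1) * m + C + 3, fun N => ?_⟩
    have hsub : {n : ℕ | n < N ∧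
        ¬ IsLeast {p : ℕ | p.Prime ∧ ∃ i, i ≤ n ∧ p = (x n + 1) + (x i + 1) - 1} (x (n + 1) + 1)} ⊆
        Set.Iio m ∪ (fun k => k - 1) '' (Z ∩ Set.Iio (N + 1)) := by
      rintro n ⟨hn, hn'⟩
      rcases Nat.lt_or_ge n m with h | h
      · exact Or.inl h
      · right
        by_cases hZn : n + 1 ∈ Z
        · exact ⟨n + 1, ⟨hZn, by rw [Set.mem_Iio]; omega⟩, by simp⟩
        · exact absurd (hleast n (by omega) hZn) hn'
    have hfin : (Z ∩ Set.Iio (N + 1)).Finite := (Set.finite_Iio _).subset Set.inter_subset_right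
    have h1 : {n : ℕ | n < N ∧
        ¬ IsLeast {p : ℕ | p.Prime ∧ ∃ i, i ≤ n ∧ p = (x n + 1) + (x i + 1) - 1} (x (n + 1) + 1)}.ncard ≤
        m + (Z ∩ Set.Iio (N + 1)).ncard := by
      refine (Set.ncard_le_ncard hsub ((Set.finite_Iio _).union (hfin.image _))).trans ?_
      refine (Set.ncard_union_le _ _).trans ?_
      refine Nat.add_le_add ?_ (Set.ncard_image_le hfin)
      rw [← Finset.coe_Iio, Set.ncard_coe_finset, Nat.card_Iio]
    have h2 := hC (N + 1)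
    calc (K + 1) * _ ≤ (K + 1) * (m + (Z ∩ Set.Iio (N + 1)).ncard) := Nat.mul_le_mul_left _ h1
      _ = (K + 1) * m + (K + 1) * (Z ∩ Set.Iio (N + 1)).ncard := by ring
      _ ≤ (K + 1) * m + (C + 3 * (N + 1)) := Nat.add_le_add_left h2 _
      _ = (K + 1) * m + C + 3 + 3 * N := by ring

end Pool.Agent.H550U.Y
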