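import Pool.Agent.H550U.W.ScaleA
import Pool.Agent.H550U.W.TCmain

/-!
# A slowly growing quality of the exceptional sets
-/

namespace Pool.Agent.H550U.Y

open Finset Pool.Agent.H550U.W

lemma tc_U (U : ℕ) : ∃ X₀ : ℕ, ∀ X, X₀ ≤ X → ∃ S : Finset (ℕ × ℕ), TCat X S ∧
    (#S : ℝ) ≤ (X : ℝ) ^ 2 / Real.log X ^ (U + 300) := by
  classical
  obtain ⟨X₀, h⟩ := tc (U + 300) 115
  refine ⟨X₀ + 3, fun X hX => ?_⟩
  obtain ⟨S, h1, h2⟩ := h X (by omega)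
  have hlog : 1 ≤ Real.log X := by
    have hX3 : (3 : ℝ) ≤ X := by exact_mod_cast (by omega : 3 ≤ X)
    rw [Real.le_log_iff_exp_le (by linarith)]
    have := Real.exp_one_lt_d9
    linarith
  refine ⟨S, ⟨?_, ?_⟩, h1⟩
  · refine h1.trans ?_
    have e1 : Real.log X ^ 300 ≤ Real.log X ^ (U + 300) := pow_le_pow_right₀ hlog (by omega)
    have e2 : 0 < Real.log X ^ 300 := pow_pos (by linarith) _
    exact div_le_div₀ (sq_nonneg _) le_rfl e2 e1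
  · intro y s hy hyX hsX hy6 hs6 hys u v hv hu huv Q hQ
    refine (h2 y s hy hyX hsX hy6 hs6 hys u v hv hu huv).trans (le_of_eq ?_)
    congr 1
    congr 1
    ext t
    rw [hQ, mem_filter, mem_Ioc]

theorem exists_psi : ∃ (X₁ : ℕ) (ψ : ℕ → ℕ), Monotone ψ ∧ (∀ K, ∃ X₀, ∀ X, X₀ ≤ X → K ≤ ψ X) ∧
    ∀ X, X₁ ≤ X → 2000 * (ψ X : ℝ) ≤ Real.log X ∧
      ∃ S : Finset (ℕ × ℕ), TCat X S ∧ (#S : ℝ) ≤ (X : ℝ) ^ 2 / Real.log X ^ (64 * ψ X + 300) := by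
  classical
  choose X₀ hX₀ using fun K : ℕ => tc_U (64 * K)
  obtain ⟨B, hB⟩ : ∃ B : ℕ → ℕ, ∀ K, B K = ∑ k ∈ range (K + 1), X₀ k + ⌈Real.exp (2000 * K)⌉₊ := ⟨_, fun _ => rfl⟩
  obtain ⟨ψ, hψ⟩ : ∃ ψ : ℕ → ℕ, ∀ X, ψ X = Nat.findGreatest (fun K => B K ≤ X) X := ⟨_, fun _ => rfl⟩
  refine ⟨B 0, ψ, ?_, ?_, ?_⟩
  · intro X X' h
    rw [hψ, hψ]
    exact Nat.findGreatest_mono (fun K hK => le_trans hK h) h
  · intro K
    refine ⟨B K + K, fun X hX => ?_⟩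
    rw [hψ]
    exact Nat.le_findGreatest (by omega) (by omega)
  · intro X hX
    have h1 : B (ψ X) ≤ X := by
      rw [hψ]
      exact Nat.findGreatest_spec (P := fun K => B K ≤ X) (Nat.zero_le X) hX
    rw [hB] at h1
    have h2 : X₀ (ψ X) ≤ X := by
      have : X₀ (ψ X) ≤ ∑ k ∈ range (ψ X + 1), X₀ k :=
        single_le_sum (f := X₀) (fun _ _ => Nat.zero_le _) (mem_range.mpr (Nat.lt_succ_self _))
      omega
    have h3 : Real.exp (2000 * ψ X) ≤ X := by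
      have e1 := Nat.le_ceil (Real.exp (2000 * ψ X))
      have e2 : (⌈Real.exp (2000 * ψ X)⌉₊ : ℝ) ≤ X := by exact_mod_cast (by omega : ⌈Real.exp (2000 * ψ X)⌉₊ ≤ X)
      linarith
    refine ⟨?_, hX₀ (ψ X) X h2⟩
    have hX0 : (0 : ℝ) < X := lt_of_lt_of_le (Real.exp_pos _) h3
    exact (Real.le_log_iff_exp_le hX0).mpr h3

end Pool.Agent.H550U.Y
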