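import Pool.Agent.H550U.W.Chain

/-!
# A preparatory phase
-/

namespace Pool.Agent.H550U.Y

open Finset Pool.Agent.H550U.W

variable {L M υ g X : ℕ}

/-- the ternary count in a short interval -/
lemma ternary' (h : Par L M υ g X) {S : Finset (ℕ × ℕ)} (hS : TCat X S) (y s : ℕ) (hy1 : 1 ≤ y) (hyX : y ≤ X)
    (hsX : s ≤ X) (hy6 : 6 ∣ y) (hs6 : 6 ∣ s) (hys : (y, s) ∉ S) (u v : ℕ) (hv : v ≤ s) (hu : υ ≤ u) (huv : u + 2 * υ ≤ v)
    (Q : Finset ℕ) (hQ : ∀ t, t ∈ Q ↔ (u < t ∧ t ≤ v) ∧ PP t ∧ PP (y + t) ∧ PP (s - t)) :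
    ((v : ℝ) - u) / (L : ℝ) ^ 7 ≤ #Q := by
  obtain ⟨hM, hυ⟩ := h.pos
  have h1 := h.Xlog
  have h2 := h.pow6
  have h3 := h.logpos
  have h5 : (υ : ℝ) ≤ u := by exact_mod_cast hu
  have h6 : ((u : ℝ) + 2 * υ) ≤ v := by exact_mod_cast huv
  have h7 : (0 : ℝ) ≤ υ := Nat.cast_nonneg _
  refine le_trans ?_ (hS.2 y s hy1 hyX hsX hy6 hs6 hys u v hv (h1.trans h5) (h1.trans (by linarith)) Q hQ)
  have h8 : 0 ≤ (v : ℝ) - u := by linarith
  gcongr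

theorem phase {P : ℕ → Finset ℕ} {Ok : ℕ → ℕ → Prop} {Adm : ℕ → ℕ → ℕ → Prop} (h : Par L M υ g X)
    {S : Finset (ℕ × ℕ)} (hS : TCat X S) (q : ℕ → ℕ) (hq : ∀ i, i < L ^ 9 → υ ≤ q i ∧ q i + 8 * υ ≤ X / 2)
    (hP : ∀ i, i < L ^ 9 → ∀ t, t ∈ P i ↔ (q i < t ∧ t ≤ q i + 8 * υ) ∧ PP t)
    (hwin : Win P Ok Adm (1 / (2 * (L : ℝ) ^ 35)) 0 (L ^ 9)) (B : Finset ℕ) (hB : (#B : ℝ) ≤ 4 * υ / (L : ℝ) ^ 7)
    (r : ℕ) (hr : Ok 0 r) :
    ∃ τ : ℕ → ℕ, Sel P Ok Adm 0 (L ^ 9) r τ ∧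
      ∀ y, PP y → y ≤ X / 4 → y ∉ EE X S → ∃ t ∈ tset τ 0 (L ^ 9), PP (y + t) ∧ y + t ∉ B := by
  classical
  obtain ⟨hM1, hυ1⟩ := h.pos
  have hL := h.Lpos
  have hLp : ∀ n : ℕ, (0 : ℝ) < (L : ℝ) ^ n := fun n => pow_pos (by linarith) n
  have hυ0 : (0 : ℝ) < υ := by exact_mod_cast hυ1
  obtain ⟨Y, hYd⟩ : ∃ Y : Finset ℕ, Y = (range (X / 4 + 1)).filter fun y => PP y ∧ y ∉ EE X S := ⟨_, rfl⟩
  have hY : ∀ y, y ∈ Y ↔ y ≤ X / 4 ∧ PP y ∧ y ∉ EE X S := by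
    intro y
    rw [hYd, mem_filter, mem_range]
    constructor
    · rintro ⟨h1, h2⟩; exact ⟨by omega, h2⟩
    · rintro ⟨h1, h2⟩; exact ⟨by omega, h2⟩
  have hYc : (#Y : ℝ) ≤ X + 1 := by
    have h1 : Y ⊆ range (X + 1) := fun y hy => by
      rw [mem_range]; have := ((hY y).mp hy).1; omega
    have h2 := card_le_card h1
    rw [card_range] at h2
    exact_mod_cast h2
  have hPc : ∀ i, i < L ^ 9 → (#(P i) : ℝ) ≤ 8 * υ := by
    intro i hi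
    have h1 : P i ⊆ Ioc (q i) (q i + 8 * υ) := by
      intro t ht
      rw [mem_Ioc]
      exact ((hP i hi t).mp ht).1
    have h2 := card_le_card h1
    rw [Nat.card_Ioc, Nat.add_sub_cancel_left] at h2
    exact_mod_cast h2
  have h35 : (L : ℝ) ^ 7 ≤ (L : ℝ) ^ 35 := pow_le_pow_right₀ (by linarith) (by norm_num)
  have h35' : 4 * (L : ℝ) ^ 7 ≤ (L : ℝ) ^ 35 := by
    have e1 : (L : ℝ) ^ 35 = (L : ℝ) ^ 7 * (L : ℝ) ^ 28 := by rw [← pow_add]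
    have e2 : (4 : ℝ) ≤ (L : ℝ) ^ 28 := le_trans (by linarith) (le_self_pow₀ (by linarith) (by norm_num : (28 : ℕ) ≠ 0))
    have e3 := hLp 7
    rw [e1]
    nlinarith
  have hδπ : 1 / (2 * (L : ℝ) ^ 35) ≤ 1 / (2 * (L : ℝ) ^ 7) :=
    one_div_le_one_div_of_le (by have := hLp 7; positivity) (by linarith)
  have hδ1 : 1 / (2 * (L : ℝ) ^ 35) < 1 := by
    rw [div_lt_one (by have := hLp 35; positivity)]
    have : (1 : ℝ) ≤ (L : ℝ) ^ 35 := one_le_pow₀ (by linarith)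
    linarith
  have hok := hwin.ok
  obtain ⟨τ, hτ, hg⟩ := greedy (P := P) (Ok := Ok) (Adm := Adm) (ι := ℕ) (1 / (2 * (L : ℝ) ^ 35)) (1 / (2 * (L : ℝ) ^ 7))
    hδ1 hδπ hok (L ^ 9) 0 r hr (fun i h1 h2 => hwin.ne i h1 (by omega)) (fun i h1 h2 => hwin.adm i h1 (by omega))
    Y (fun _ => range (L ^ 9)) (fun y i => (P i).filter fun t => PP (y + t) ∧ y + t ∉ B)
    (by
      intro y _ i hi
      rw [mem_range] at hi
      omega)
    (by
      intro y hy i hi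
      rw [mem_range] at hi
      obtain ⟨hy1, hy2, hy3⟩ := (hY y).mp hy
      refine ⟨filter_subset _ _, ?_⟩
      have hyE := hy3
      unfold EE at hyE
      rw [mem_filter, mem_range] at hyE
      push Not at hyE
      obtain ⟨s, hs1, hs2, hs3, hs4⟩ := hyE (by omega)
      obtain ⟨q1, q2⟩ := hq i hi
      have h1 := ternary' h hS y s hy2.pos (by omega) hs2 hy2.1 hs3 hs4 (q i) (q i + 8 * υ) (by omega) q1 (by omega)
        ((Ioc (q i) (q i + 8 * υ)).filter fun t => PP t ∧ PP (y + t) ∧ PP (s - t)) (fun t => by rw [mem_filter, mem_Ioc])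
      have h2 : (((q i + 8 * υ : ℕ) : ℝ) - q i) = 8 * υ := by push_cast; ring
      rw [h2] at h1
      have h3 : ((Ioc (q i) (q i + 8 * υ)).filter fun t => PP t ∧ PP (y + t) ∧ PP (s - t)) ⊆
          ((P i).filter fun t => PP (y + t) ∧ y + t ∉ B) ∪ B.image fun b => b - y := by
        intro t ht
        rw [mem_filter, mem_Ioc] at ht
        rw [mem_union, mem_filter]
        by_cases hb : y + t ∈ B
        · right
          exact mem_image.mpr ⟨y + t, hb, by omega⟩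
        · left
          exact ⟨(hP i hi t).mpr ⟨ht.1, ht.2.1⟩, ht.2.2.1, hb⟩
      have h4 : (#((Ioc (q i) (q i + 8 * υ)).filter fun t => PP t ∧ PP (y + t) ∧ PP (s - t)) : ℝ) ≤
          #((P i).filter fun t => PP (y + t) ∧ y + t ∉ B) + #B := by
        exact_mod_cast (card_le_card h3).trans ((card_union_le _ _).trans (Nat.add_le_add_left card_image_le _))
      have h5 : 1 / (2 * (L : ℝ) ^ 7) * (#(P i) : ℝ) ≤ 4 * υ / (L : ℝ) ^ 7 := by
        have := hPc i hi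
        calc 1 / (2 * (L : ℝ) ^ 7) * (#(P i) : ℝ) ≤ 1 / (2 * (L : ℝ) ^ 7) * (8 * υ) := by gcongr
          _ = 4 * υ / (L : ℝ) ^ 7 := by
            have := hLp 7
            field_simp
            norm_num
      have h6 : 8 * (υ : ℝ) / (L : ℝ) ^ 7 = 4 * υ / (L : ℝ) ^ 7 + 4 * υ / (L : ℝ) ^ 7 := by ring
      linarith)
    (by
      refine lt_of_le_of_lt ?_ (h.exp3 _ (Nat.cast_nonneg _) hYc)
      rw [sum_const, card_range, nsmul_eq_mul]
      refine mul_le_mul_of_nonneg_left ?_ (Nat.cast_nonneg _)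
      apply pow_le_pow_left₀
      · have : 1 / (2 * (L : ℝ) ^ 7) ≤ 1 := by
          rw [div_le_one (by have := hLp 7; positivity)]
          have : (1 : ℝ) ≤ (L : ℝ) ^ 7 := one_le_pow₀ (by linarith)
          linarith
        have : 0 ≤ 1 / (2 * (L : ℝ) ^ 35) := by have := hLp 35; positivity
        linarith
      · have e1 : 1 / (2 * (L : ℝ) ^ 35) ≤ 1 / (8 * (L : ℝ) ^ 7) :=
          one_div_le_one_div_of_le (by have := hLp 7; positivity) (by linarith)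
        have e2 : 1 / (2 * (L : ℝ) ^ 7) = 4 * (1 / (8 * (L : ℝ) ^ 7)) := by
          have := hLp 7
          field_simp
          norm_num
        have e3 : 0 ≤ 1 / (8 * (L : ℝ) ^ 7) := by have := hLp 7; positivity
        linarith)
  rw [Nat.zero_add] at hτ
  refine ⟨τ, hτ, ?_⟩
  intro y hy hyX hyE
  obtain ⟨i, hi, hi'⟩ := hg y ((hY y).mpr ⟨hyX, hy, hyE⟩)
  rw [mem_range] at hi
  rw [mem_filter] at hi'
  exact ⟨τ (i + 1), mem_tset.mpr ⟨i, Nat.zero_le _, hi, rfl⟩, hi'.2.1, hi'.2.2⟩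

end Pool.Agent.H550U.Y
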