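import Pool.Agent.H550U.W.Growth

/-!
# Iterated exceptional sets and walks
-/

namespace Pool.Agent.H550U.Y

open Finset Pool.Agent.H550U.W

/-- numbers from which at most `k` steps in `D` lead to `E` -/
def BK (D E : Finset ℕ) : ℕ → Finset ℕ
  | 0 => E
  | k + 1 => E ∪ (BK D E k ×ˢ D).image fun x => x.1 - x.2

lemma E_sub_BK (D E : Finset ℕ) (k : ℕ) : E ⊆ BK D E k := by
  cases k with
  | zero => exact Subset.rfl
  | succ k => exact subset_union_left

lemma BK_step {D E : Finset ℕ} {k y t : ℕ} (h : y ∉ BK D E (k + 1)) (ht : t ∈ D) : y + t ∉ BK D E k := by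
  intro hcon
  refine h (mem_union_right _ (mem_image.mpr ⟨(y + t, t), mem_product.mpr ⟨hcon, ht⟩, ?_⟩))
  simp

lemma card_BK (D E : Finset ℕ) (k : ℕ) : #(BK D E k) ≤ (#D + 1) ^ k * #E := by
  induction k with
  | zero => simp [BK]
  | succ k ih =>
    have h1 : #E ≤ #(BK D E k) := card_le_card (E_sub_BK D E k)
    calc #(BK D E (k + 1)) ≤ #E + #((BK D E k ×ˢ D).image fun x => x.1 - x.2) := card_union_le _ _
      _ ≤ #(BK D E k) + #(BK D E k) * #D := by
          refine Nat.add_le_add h1 (card_image_le.trans ?_)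
          rw [card_product]
      _ = #(BK D E k) * (#D + 1) := by ring
      _ ≤ (#D + 1) ^ k * #E * (#D + 1) := Nat.mul_le_mul_right _ ih
      _ = (#D + 1) ^ (k + 1) * #E := by ring

/-- walks: `tru` steps go to the least element of `PP` in `z + D`, the other steps use elements of `T`;
`n` is the number of steps, `v` the number of other steps -/
inductive Wk (D T : Finset ℕ) : ℕ → ℕ → ℕ → ℕ → Prop
  | refl (y : ℕ) : Wk D T y y 0 0
  | tru {y z n v : ℕ} (z' : ℕ) : Wk D T y z n v → (∃ t ∈ D, z' = z + t ∧ PP z') →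
      (∀ t ∈ D, PP (z + t) → z' ≤ z + t) → Wk D T y z' (n + 1) v
  | vio {y z n v : ℕ} (t : ℕ) : Wk D T y z n v → t ∈ T → PP (z + t) → Wk D T y (z + t) (n + 1) (v + 1)

lemma Wk.trans {D T : Finset ℕ} {y z w n v n' v' : ℕ} (h : Wk D T y z n v) (h' : Wk D T z w n' v') :
    Wk D T y w (n + n') (v + v') := by
  induction h' with
  | refl => exact h
  | tru z' _ h1 h2 ih => exact Wk.tru z' ih h1 h2
  | vio t _ h1 h2 ih => exact Wk.vio t ih h1 h2

lemma Wk.mono {D T T' : Finset ℕ} (hT : T ⊆ T') {y z n v : ℕ} (h : Wk D T y z n v) : Wk D T' y z n v := by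
  induction h with
  | refl => exact Wk.refl _
  | tru z' _ h1 h2 ih => exact Wk.tru z' ih h1 h2
  | vio t _ h1 h2 ih => exact Wk.vio t ih (hT h1) h2

lemma Wk.of_reach {D T : Finset ℕ} {M y z : ℕ} (hT : ∀ t ∈ T, M ≤ t) (h : Reach T y z) :
    ∃ n, Wk D T y z n n ∧ y + n * M ≤ z := by
  unfold Reach at h
  induction h with
  | refl => exact ⟨0, Wk.refl _, by omega⟩
  | tail _ hac ih =>
    obtain ⟨n, h1, h2⟩ := ih
    obtain ⟨h3, t, ht, rfl⟩ := hac
    refine ⟨n + 1, Wk.vio t h1 ht h3, ?_⟩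
    have := hT t ht
    have : (n + 1) * M = n * M + M := by ring
    omega

/-- walking to a zone of length `M` -/
theorem wander (D TB E : Finset ℕ) (K M XX lo : ℕ) (hD : ∀ t ∈ D, 0 < t) (hTB : ∀ t ∈ TB, M ≤ 2 * t ∧ t ≤ M)
    (hA : ∀ y, PP y → y ≤ XX → y ∉ E → ∃ t ∈ D, t ≤ M ∧ PP (y + t))
    (hB : ∀ y, PP y → y ≤ XX → y ∉ E → ∃ t ∈ TB, PP (y + t) ∧ y + t ∉ BK D E K) (hM : 0 < M) (hXX : lo ≤ XX) :
    ∀ (d y j : ℕ), lo - y ≤ d → j ≤ K → PP y → y ∉ BK D E j → y ≤ lo + M → ∃ y' n v, Wk D TB y y' n v ∧ PP y' ∧ y' ∉ E ∧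
      lo ≤ y' ∧ y' ≤ lo + M ∧ v * (K + 1) + j ≤ n + K ∧ n ≤ v * (K + 1) + j ∧ 2 * y + v * M ≤ 2 * y' ∧
      y' ≤ y + n * M := by
  classical
  intro d
  induction d with
  | zero =>
    intro y j hd hj hy hyB hyM
    exact ⟨y, 0, 0, Wk.refl y, hy, fun h => hyB (E_sub_BK D E j h), by omega, hyM, by omega, by omega, by omega, by omega⟩
  | succ d ih =>
    intro y j hd hj hy hyB hyM
    have hyE : y ∉ E := fun h => hyB (E_sub_BK D E j h)
    rcases Nat.lt_or_ge y lo with h | h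
    swap
    · exact ⟨y, 0, 0, Wk.refl y, hy, hyE, h, hyM, by omega, by omega, by omega, by omega⟩
    rcases Nat.eq_zero_or_pos j with hj0 | hj0
    · -- a free step
      subst hj0
      obtain ⟨t, ht, h1, h2⟩ := hB y hy (by omega) hyE
      obtain ⟨h3, h4⟩ := hTB t ht
      obtain ⟨y', n, v, w1, w2, w3, w4, w5, w6, w7, w8, w9⟩ := ih (y + t) K (by omega) le_rfl h1 h2 (by omega)
      have w0 : Wk D TB y (y + t) 1 1 := Wk.vio t (Wk.refl y) ht h1
      have e1 : (v + 1) * (K + 1) = v * (K + 1) + K + 1 := by ring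
      have e2 : (v + 1) * M = v * M + M := by ring
      have e3 : (n + 1) * M = n * M + M := by ring
      refine ⟨y', n + 1, v + 1, ?_, w2, w3, w4, w5, by omega, by omega, by omega, by omega⟩
      have := w0.trans w1
      rwa [Nat.add_comm 1 n, Nat.add_comm 1 v] at this
    · -- a step of the rule
      obtain ⟨j', rfl⟩ : ∃ j', j = j' + 1 := ⟨j - 1, by omega⟩
      obtain ⟨t₀, ht₀, h1, h2⟩ := hA y hy (by omega) hyE
      obtain ⟨Z, hZ⟩ : ∃ Z : Finset ℕ, Z = D.filter fun t => PP (y + t) := ⟨_, rfl⟩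
      have hZne : Z.Nonempty := ⟨t₀, by rw [hZ, mem_filter]; exact ⟨ht₀, h2⟩⟩
      obtain ⟨t, htZ, hmin⟩ := exists_min_image Z id hZne
      rw [hZ, mem_filter] at htZ
      have h3 : t ≤ t₀ := hmin t₀ (by rw [hZ, mem_filter]; exact ⟨ht₀, h2⟩)
      have h4 := hD t htZ.1
      obtain ⟨y', n, v, w1, w2, w3, w4, w5, w6, w7, w8, w9⟩ := ih (y + t) j' (by omega) (by omega) htZ.2
        (BK_step hyB htZ.1) (by omega)
      have w0 : Wk D TB y (y + t) 1 0 := by
        refine Wk.tru (y + t) (Wk.refl y) ⟨t, htZ.1, rfl, htZ.2⟩ ?_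
        intro t' ht' hp
        have h5 : t ≤ t' := hmin t' (by rw [hZ, mem_filter]; exact ⟨ht', hp⟩)
        omega
      have e3 : (n + 1) * M = n * M + M := by ring
      refine ⟨y', n + 1, v, ?_, w2, w3, w4, w5, by omega, by omega, by omega, by omega⟩
      have := w0.trans w1
      rwa [Nat.add_comm 1 n, Nat.zero_add] at this

end Pool.Agent.H550U.Y
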